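import Mathlib

/-!
The Hilbert space on the nodes and branches of the binary tree, and a dense subspace on which the
norm is a pointwise limit of weakly continuous functions.
-/

set_option autoImplicit false

open Filter Topology

namespace Pool.Agent.P.MP_51339e_an

/-- nodes of the binary tree -/
abbrev Node : Type := Σ n : ℕ, (Fin n → Bool)

/-- nodes and branches of the binary tree -/
abbrev Idx : Type := Node ⊕ (ℕ → Bool)

/-- restriction of a branch to level `n` -/
def res (t : ℕ → Bool) (n : ℕ) : Fin n → Bool := fun i => t i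

variable (𝕜 : Type) [RCLike 𝕜]

/-- the Hilbert space -/
abbrev H : Type := lp (fun _ : Idx => 𝕜) 2

open Classical in
/-- the dense subspace -/
noncomputable def A : Submodule 𝕜 (H 𝕜) where
  carrier := {a | ∃ F : Finset (ℕ → Bool), (∀ t, t ∉ F → a (Sum.inr t) = 0) ∧
    ∀ᶠ n in atTop, ∀ ν : Fin n → Bool,
      a (Sum.inl ⟨n, ν⟩) = (1 / 2 : 𝕜) ^ n * ∑ t ∈ F, if res t n = ν then a (Sum.inr t) else 0}
  zero_mem' := ⟨∅, fun t _ => rfl, Eventually.of_forall fun n ν => by simp⟩
  add_mem' := by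
    rintro a b ⟨F, hF, hF'⟩ ⟨G, hG, hG'⟩
    refine ⟨F ∪ G, fun t ht => ?_, ?_⟩
    · simp only [Finset.mem_union, not_or] at ht
      simp [hF t ht.1, hG t ht.2]
    · filter_upwards [hF', hG'] with n h1 h2 ν
      have e1 : (∑ t ∈ F, if res t n = ν then a (Sum.inr t) else 0)
          = ∑ t ∈ F ∪ G, if res t n = ν then a (Sum.inr t) else 0 :=
        Finset.sum_subset Finset.subset_union_left fun t _ ht => by simp [hF t ht]
      have e2 : (∑ t ∈ G, if res t n = ν then b (Sum.inr t) else 0)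
          = ∑ t ∈ F ∪ G, if res t n = ν then b (Sum.inr t) else 0 :=
        Finset.sum_subset Finset.subset_union_right fun t _ ht => by simp [hG t ht]
      rw [lp.coeFn_add, Pi.add_apply, h1 ν, h2 ν, e1, e2, ← mul_add, ← Finset.sum_add_distrib]
      congr 1
      refine Finset.sum_congr rfl fun t _ => ?_
      split_ifs <;> simp
  smul_mem' := by
    rintro c a ⟨F, hF, hF'⟩
    refine ⟨F, fun t ht => by simp [hF t ht], ?_⟩
    filter_upwards [hF'] with n h1 ν
    rw [lp.coeFn_smul, Pi.smul_apply, h1 ν, smul_eq_mul, ← mul_assoc, mul_comm c, mul_assoc,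
      Finset.mul_sum]
    congr 1
    refine Finset.sum_congr rfl fun t _ => ?_
    split_ifs <;> simp

open Classical in
/-- unit vectors -/
noncomputable def e (i : Idx) : H 𝕜 := lp.single 2 i (1 : 𝕜)

open Classical in
theorem e_apply (i j : Idx) : e 𝕜 i j = if j = i then 1 else 0 := by
  unfold e
  split_ifs with h
  · subst h; simp
  · exact lp.single_apply_ne 2 i _ h

open Classical in
theorem norm_e (i : Idx) : ‖e 𝕜 i‖ = 1 := by
  unfold e
  rw [lp.norm_single (by norm_num)]; simp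

open Classical in
theorem inner_e (i : Idx) (x : H 𝕜) : inner 𝕜 (e 𝕜 i) x = x i := by
  unfold e
  rw [lp.inner_single_left]; simp

theorem e_node_mem (ν : Node) : e 𝕜 (Sum.inl ν) ∈ A 𝕜 := by
  refine ⟨∅, fun t _ => by simp [e_apply], ?_⟩
  filter_upwards [eventually_gt_atTop ν.1] with n hn μ
  rw [e_apply, if_neg]
  · simp
  · intro h
    have := Sum.inl_injective h
    subst this
    exact lt_irrefl _ hn

open Classical in
/-- the coordinates of the vector attached to a branch -/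
noncomputable def brFun (t : ℕ → Bool) : Idx → 𝕜
  | Sum.inl ν => if res t ν.1 = ν.2 then (1 / 2 : 𝕜) ^ ν.1 else 0
  | Sum.inr s => if s = t then 1 else 0

theorem brFun_mem (t : ℕ → Bool) : Memℓp (brFun 𝕜 t) 2 := by
  classical
  apply memℓp_gen
  apply Summable.sum
  · have hinj : Function.Injective (fun n : ℕ => (⟨n, res t n⟩ : Node)) :=
      fun a b h => congrArg Sigma.fst h
    rw [← hinj.summable_iff]
    · refine (summable_geometric_of_lt_one (r := (1 / 4 : ℝ)) (by norm_num) (by norm_num)).congr ?_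
      intro n
      simp only [Function.comp, brFun, if_true, ENNReal.toReal_ofNat, Real.rpow_ofNat, norm_pow,
        norm_div, norm_one, RCLike.norm_ofNat]
      rw [← pow_mul, mul_comm, pow_mul]; norm_num
    · rintro ⟨n, ν⟩ h
      have : res t n ≠ ν := by
        rintro rfl
        exact h ⟨n, rfl⟩
      simp [brFun, this]
  · refine summable_of_ne_finset_zero (s := {t}) ?_
    intro s hs
    have : s ≠ t := by simpa using hs
    simp [brFun, this]

/-- the vector attached to a branch -/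
noncomputable def br (t : ℕ → Bool) : H 𝕜 := ⟨brFun 𝕜 t, brFun_mem 𝕜 t⟩

theorem br_apply (t : ℕ → Bool) (i : Idx) : br 𝕜 t i = brFun 𝕜 t i := rfl

theorem br_mem (t : ℕ → Bool) : br 𝕜 t ∈ A 𝕜 := by
  refine ⟨{t}, fun s hs => ?_, Eventually.of_forall fun n ν => ?_⟩
  · have : s ≠ t := by simpa using hs
    simp [br_apply, brFun, this]
  · simp only [br_apply, brFun, Finset.sum_singleton, if_true]
    split_ifs <;> simp

theorem dense_A : Dense (A 𝕜 : Set (H 𝕜)) := by
  rw [Submodule.dense_iff_topologicalClosure_eq_top, Submodule.topologicalClosure_eq_top_iff,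
    Submodule.eq_bot_iff]
  intro x hx
  have h1 : ∀ ν : Node, x (Sum.inl ν) = 0 := fun ν => by
    rw [← inner_e]; exact Submodule.inner_right_of_mem_orthogonal (e_node_mem 𝕜 ν) hx
  have h2 : ∀ t, x (Sum.inr t) = 0 := fun t => by
    have := Submodule.inner_right_of_mem_orthogonal (br_mem 𝕜 t) hx
    rw [lp.inner_eq_tsum, tsum_eq_single (Sum.inr t)] at this
    · simpa [br_apply, brFun] using this
    · rintro (ν | s) h
      · simp [h1]
      · have : s ≠ t := fun hh => h (by rw [hh])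
        simp [br_apply, brFun, this]
  ext i
  rcases i with ν | t
  · simp [h1]
  · simp [h2]

/-- the approximating functions -/
noncomputable def g (n : ℕ) (x : H 𝕜) : ℝ :=
  √(∑ m ∈ Finset.range n, ∑ ν : Fin m → Bool, ‖x (Sum.inl ⟨m, ν⟩)‖ ^ 2
    + 4 ^ n * ∑ ν : Fin n → Bool, ‖x (Sum.inl ⟨n, ν⟩)‖ ^ 2)

theorem continuous_coord (i : Idx) :
    Continuous fun x : WeakSpace 𝕜 (H 𝕜) => ((toWeakSpace 𝕜 (H 𝕜)).symm x) i :=
  WeakBilin.eval_continuous (topDualPairing 𝕜 (H 𝕜)).flip (lp.evalCLM 𝕜 (fun _ : Idx => 𝕜) 2 i)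

theorem continuous_g (n : ℕ) :
    Continuous fun x : WeakSpace 𝕜 (H 𝕜) => g 𝕜 n ((toWeakSpace 𝕜 (H 𝕜)).symm x) := by
  unfold g
  refine Real.continuous_sqrt.comp (Continuous.add ?_ (Continuous.mul continuous_const ?_))
  · exact continuous_finsetSum _ fun m _ => continuous_finsetSum _ fun ν _ =>
      ((continuous_coord 𝕜 _).norm).pow 2
  · exact continuous_finsetSum _ fun ν _ => ((continuous_coord 𝕜 _).norm).pow 2

theorem eventually_injOn (F : Finset (ℕ → Bool)) :
    ∀ᶠ n in atTop, ∀ s ∈ F, ∀ t ∈ F, res s n = res t n → s = t := by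
  rw [eventually_all_finset]
  intro s _
  rw [eventually_all_finset]
  intro t _
  by_cases h : s = t
  · exact Eventually.of_forall fun _ _ => h
  · obtain ⟨k, hk⟩ := Function.ne_iff.mp h
    filter_upwards [eventually_gt_atTop k] with n hn hh
    exact absurd (congrFun hh ⟨k, hn⟩) hk

theorem tendsto_g (a : H 𝕜) (ha : a ∈ A 𝕜) : Tendsto (fun n => g 𝕜 n a) atTop (𝓝 ‖a‖) := by
  classical
  obtain ⟨F, hF, hF'⟩ := ha
  have hs : HasSum (fun i => ‖a i‖ ^ 2) (‖a‖ ^ 2) := by
    have := lp.hasSum_norm (p := 2) (by norm_num) a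
    simpa using this
  have hs1 : Summable ((fun i => ‖a i‖ ^ 2) ∘ Sum.inl) := hs.summable.comp_injective Sum.inl_injective
  have hs2 : HasSum ((fun i => ‖a i‖ ^ 2) ∘ Sum.inr) (∑ t ∈ F, ‖a (Sum.inr t)‖ ^ 2) :=
    hasSum_sum_of_ne_finset_zero fun t ht => by simp [hF t ht]
  have hsum : ‖a‖ ^ 2 = ∑' ν : Node, ‖a (Sum.inl ν)‖ ^ 2 + ∑ t ∈ F, ‖a (Sum.inr t)‖ ^ 2 :=
    hs.unique (hs1.hasSum.sum hs2)
  have h3 : HasSum (fun m : ℕ => ∑ ν : Fin m → Bool, ‖a (Sum.inl ⟨m, ν⟩)‖ ^ 2)
      (∑' ν : Node, ‖a (Sum.inl ν)‖ ^ 2) :=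
    hs1.hasSum.sigma fun m => hasSum_fintype _
  have h4 : ∀ᶠ n in atTop, (4 : ℝ) ^ n * ∑ ν : Fin n → Bool, ‖a (Sum.inl ⟨n, ν⟩)‖ ^ 2
      = ∑ t ∈ F, ‖a (Sum.inr t)‖ ^ 2 := by
    filter_upwards [hF', eventually_injOn F] with n h1 h2
    have key : ∀ ν : Fin n → Bool, (4 : ℝ) ^ n * ‖a (Sum.inl ⟨n, ν⟩)‖ ^ 2
        = ∑ t ∈ F, if res t n = ν then ‖a (Sum.inr t)‖ ^ 2 else 0 := by
      intro ν
      rw [h1 ν, norm_mul, mul_pow, ← mul_assoc]
      have : (4 : ℝ) ^ n * ‖(1 / 2 : 𝕜) ^ n‖ ^ 2 = 1 := by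
        simp only [norm_pow, norm_div, norm_one, RCLike.norm_ofNat]
        rw [← pow_mul, mul_comm n 2, pow_mul, ← mul_pow]; norm_num
      rw [this, one_mul]
      by_cases hν : ∃ t ∈ F, res t n = ν
      · obtain ⟨t, ht, rfl⟩ := hν
        rw [Finset.sum_eq_single t, Finset.sum_eq_single t]
        · simp
        · intro s hs hst
          rw [if_neg fun h => hst (h2 s hs t ht h)]
        · intro h; exact absurd ht h
        · intro s hs hst
          rw [if_neg fun h => hst (h2 s hs t ht h)]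
        · intro h; exact absurd ht h
      · push Not at hν
        rw [Finset.sum_eq_zero fun t ht => if_neg (hν t ht),
          Finset.sum_eq_zero fun t ht => if_neg (hν t ht)]
        simp
    rw [Finset.mul_sum, Finset.sum_congr rfl fun ν _ => key ν, Finset.sum_comm]
    refine Finset.sum_congr rfl fun t _ => ?_
    simp
  have h5 : Tendsto (fun n => ∑ m ∈ Finset.range n, ∑ ν : Fin m → Bool, ‖a (Sum.inl ⟨m, ν⟩)‖ ^ 2
      + 4 ^ n * ∑ ν : Fin n → Bool, ‖a (Sum.inl ⟨n, ν⟩)‖ ^ 2) atTop (𝓝 (‖a‖ ^ 2)) := by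
    rw [hsum]
    refine Tendsto.add h3.tendsto_sum_nat ?_
    exact tendsto_const_nhds.congr' (h4.mono fun n hn => hn.symm)
  have h6 := h5.sqrt
  rw [Real.sqrt_sq (norm_nonneg a)] at h6
  exact h6

theorem tendsto_e_weak :
    Tendsto (fun i => toWeakSpace 𝕜 (H 𝕜) (e 𝕜 i)) cofinite (𝓝 (toWeakSpace 𝕜 (H 𝕜) 0)) := by
  have hinj : Function.Injective (topDualPairing 𝕜 (H 𝕜)).flip := by
    intro x y hxy
    apply (SeparatingDual.eq_iff_forall_dual_eq (R := 𝕜)).mpr
    intro φ
    exact LinearMap.congr_fun hxy φ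
  refine (WeakBilin.tendsto_iff_forall_eval_tendsto (topDualPairing 𝕜 (H 𝕜)).flip hinj).mpr ?_
  intro φ
  obtain ⟨y, rfl⟩ := (InnerProductSpace.toDual 𝕜 (H 𝕜)).surjective φ
  have hs : HasSum (fun i => ‖y i‖ ^ 2) (‖y‖ ^ 2) := by
    have := lp.hasSum_norm (p := 2) (by norm_num) y
    simpa using this
  have h1 := hs.summable.tendsto_cofinite_zero.sqrt
  simp only [Real.sqrt_zero, Real.sqrt_sq (norm_nonneg _)] at h1
  change Tendsto (fun i => inner 𝕜 y (e 𝕜 i)) cofinite (𝓝 (inner 𝕜 y (0 : H 𝕜)))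
  rw [inner_zero_right, tendsto_zero_iff_norm_tendsto_zero]
  refine h1.congr fun i => ?_
  rw [norm_inner_symm, inner_e]

theorem countable_ne (f : WeakSpace 𝕜 (H 𝕜) → ℝ) (hf : Continuous f) :
    Set.Countable {i | f (toWeakSpace 𝕜 (H 𝕜) (e 𝕜 i)) ≠ f (toWeakSpace 𝕜 (H 𝕜) 0)} := by
  have := ((hf.tendsto _).comp (tendsto_e_weak 𝕜)).countable_compl_preimage_ker
  refine this.mono fun i hi => ?_
  simpa using hi

theorem not_countable_idx : ¬ (Set.univ : Set Idx).Countable := by
  intro h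
  have : Countable Idx := Set.countable_univ_iff.mp h
  have h2 : Countable (ℕ → Bool) := Sum.inr_injective.countable (β := Idx)
  have h3 : Countable (Set ℕ) := by
    classical
    refine Function.Injective.countable (f := fun s : Set ℕ => fun n => decide (n ∈ s)) ?_
    intro s t hst
    ext n
    simpa using congrFun hst n
  obtain ⟨f, hf⟩ := exists_surjective_nat (Set ℕ)
  exact Function.cantor_surjective f hf

end Pool.Agent.P.MP_51339e_an
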